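import Pool.Agent.J4H60.BPOne

open Pool.Agent.J4H60.BPOne

namespace Pool.Agent.Results.MP_e5af61_lc.SuperPolynomial

/-- **Read-once branching programs versus DNFs.**  For every real number `c` with
`0 < c < log₂ 3` and every polynomial `p` there is a Boolean function `f` with
`p(‖f‖) < BP₁(f)` and `(log₂ ‖f‖) ^ c ≤ log₂ BP₁(f)`. -/
theorem result (c : ℝ) (hc0 : 0 < c) (hc : c < Real.logb 2 3) (p : Polynomial ℝ) :
    ∃ (n : ℕ) (f : (Fin n → Bool) → Bool), p.eval (weight f : ℝ) < (BP1 f : ℝ) ∧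
      Real.logb 2 (weight f : ℝ) ^ c ≤ Real.logb 2 (BP1 f : ℝ) :=
  main c hc0 hc p

end Pool.Agent.Results.MP_e5af61_lc.SuperPolynomial
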